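import Pool.Agent.H87.MkS4

namespace Pool.Agent.Results.MP_349854_an.NoBase

open Pool.Agent.H87.MkS in
/-- A nonempty closed convex bounded SCD set whose relative weak topology has no countable
`π`-basis. -/
theorem result : ∃ (X : Type) (_ : NormedAddCommGroup X) (_ : NormedSpace ℝ X) (U : Set X),
    CompleteSpace X ∧ U.Nonempty ∧ IsClosed U ∧ Convex ℝ U ∧ Bornology.IsBounded U ∧ SCD U ∧
    ¬ ∃ V : ℕ → Set (WeakSpace ℝ X),
      (∀ n, IsOpen (V n) ∧ (V n ∩ toWeakSpace ℝ X '' U).Nonempty) ∧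
      ∀ W : Set (WeakSpace ℝ X), IsOpen W → (W ∩ toWeakSpace ℝ X '' U).Nonempty →
        ∃ n, V n ∩ toWeakSpace ℝ X '' U ⊆ W :=
  ⟨Z, inferInstance, inferInstance, U, inferInstance, ⟨_, P_mem ([], [], 0)⟩, isClosed_closure,
    U_cvx, U_bdd, U_scd, nopi⟩

end Pool.Agent.Results.MP_349854_an.NoBase
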